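import Pool.Agent.helper28.Oct.P1

set_option autoImplicit false

/-!
# OCT-P5: roots of a certificate
-/

open Set

namespace Oct

namespace P5

theorem mem_rt1 {g : Gl} {i j : ℕ} {b : Box} {l : Bool} {s : S3}
    {acc : List (Cell × S3 × ℤ)} {r : Cell × S3 × ℤ} :
    r ∈ rt1 g i j b l s acc ↔
      (b.rk l s = 0 ∧ r = (Cell.box l i j, s, ls l (blF g b s))) ∨ r ∈ acc := by
  unfold rt1
  by_cases h : b.rk l s = 0
  · simp [h]
  · have : Nat.beq (b.rk l s) 0 = false := by
      rw [← Bool.not_eq_true]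
      simpa using h
    simp [this, h]

theorem mem_rootsBox {g : Gl} {i j : ℕ} {b : Box} {acc : List (Cell × S3 × ℤ)}
    {r : Cell × S3 × ℤ} :
    r ∈ rootsBox g i j b acc ↔
      (∃ l s, b.Act s ∧ b.rk l s = 0 ∧ r = (Cell.box l i j, s, ls l (blF g b s))) ∨ r ∈ acc := by
  unfold rootsBox
  split
  · rename_i h0
    simp only [mem_rt1]
    constructor
    · rintro (⟨h1, h2⟩ | ⟨h1, h2⟩ | h3)
      · exact Or.inl ⟨false, _, fun _ => rfl, h1, h2⟩
      · exact Or.inl ⟨true, _, fun _ => rfl, h1, h2⟩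
      · exact Or.inr h3
    · rintro (⟨l, s, ha, h1, h2⟩ | h3)
      · have hs := ha h0
        subst hs
        cases l
        · exact Or.inl ⟨h1, h2⟩
        · exact Or.inr (Or.inl ⟨h1, h2⟩)
      · exact Or.inr (Or.inr h3)
  · rename_i h0
    simp only [mem_rt1]
    have hact : ∀ s, b.Act s := fun s h => absurd h h0
    constructor
    · rintro (⟨h1, h2⟩ | ⟨h1, h2⟩ | ⟨h1, h2⟩ | ⟨h1, h2⟩ | ⟨h1, h2⟩ | ⟨h1, h2⟩ | h3)
      · exact Or.inl ⟨_, _, hact _, h1, h2⟩
      · exact Or.inl ⟨_, _, hact _, h1, h2⟩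
      · exact Or.inl ⟨_, _, hact _, h1, h2⟩
      · exact Or.inl ⟨_, _, hact _, h1, h2⟩
      · exact Or.inl ⟨_, _, hact _, h1, h2⟩
      · exact Or.inl ⟨_, _, hact _, h1, h2⟩
      · exact Or.inr h3
    · rintro (⟨l, s, ha, h1, h2⟩ | h3)
      · cases l <;> cases s <;> simp [h1, h2]
      · simp [h3]

theorem mem_rootsBs {g : Gl} {i : ℕ} {r : Cell × S3 × ℤ} (bs : List Box) (j : ℕ) :
    r ∈ rootsBs g i j bs ↔ ∃ k, ∃ b, bs[k]? = some b ∧
      ∃ l s, b.Act s ∧ b.rk l s = 0 ∧ r = (Cell.box l i (j + k), s, ls l (blF g b s)) := by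
  induction bs generalizing j with
  | nil => simp [rootsBs]
  | cons b bs ih =>
    rw [rootsBs, mem_rootsBox, ih]
    constructor
    · rintro (⟨l, s, h⟩ | ⟨k, b', hb, l, s, h⟩)
      · exact ⟨0, b, by simp, l, s, by simpa using h⟩
      · exact ⟨k + 1, b', by simpa using hb, l, s, by
          rw [show j + (k + 1) = j + 1 + k by omega]; exact h⟩
    · rintro ⟨k, b', hb, l, s, h⟩
      cases k with
      | zero =>
        simp only [List.getElem?_cons_zero, Option.some.injEq] at hb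
        subst hb
        exact Or.inl ⟨l, s, by simpa using h⟩
      | succ k =>
        exact Or.inr ⟨k, b', by simpa using hb, l, s, by
          rw [show j + 1 + k = j + (k + 1) by omega]; exact h⟩


theorem natBeq_zero (n : ℕ) : Nat.beq n 0 = true ↔ n = 0 := by
  simp

theorem mem_ite_list {α : Type*} {p : Prop} [Decidable p] {x r : α} :
    r ∈ (if p then [x] else []) ↔ p ∧ r = x := by
  by_cases h : p <;> simp [h]

theorem mem_rootsC {g : Gl} {i : ℕ} {c : Column} {r : Cell × S3 × ℤ} :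
    r ∈ rootsC g i c ↔
      (∃ l, c.rt l = 0 ∧ r = (Cell.top l i, S3.of g.sp, ls l g.pl)) ∨
      (∃ l, c.rb l = 0 ∧ r = (Cell.bot l i, S3.of g.sp, ls l (-g.pl))) ∨
      (∃ j, ∃ b, c.bx[j]? = some b ∧
        ∃ l s, b.Act s ∧ b.rk l s = 0 ∧ r = (Cell.box l i j, s, ls l (blF g b s))) := by
  unfold rootsC
  simp only [List.mem_append, mem_ite_list, natBeq_zero, mem_rootsBs, Nat.zero_add,
    negZ_eq]
  constructor
  · rintro ((((⟨h1, h2⟩ | ⟨h1, h2⟩) | ⟨h1, h2⟩) | ⟨h1, h2⟩) | h)
    · exact Or.inl ⟨false, by simpa [Column.rt] using h1, by simpa [ls] using h2⟩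
    · exact Or.inl ⟨true, by simpa [Column.rt] using h1, by simpa [ls] using h2⟩
    · exact Or.inr (Or.inl ⟨false, by simpa [Column.rb] using h1, by simpa [ls] using h2⟩)
    · exact Or.inr (Or.inl ⟨true, by simpa [Column.rb] using h1, by simpa [ls] using h2⟩)
    · exact Or.inr (Or.inr h)
  · rintro (⟨l, h1, h2⟩ | ⟨l, h1, h2⟩ | h)
    · cases l
      · exact Or.inl (Or.inl (Or.inl (Or.inl ⟨by simpa [Column.rt] using h1,
          by simpa [ls] using h2⟩)))
      · exact Or.inl (Or.inl (Or.inl (Or.inr ⟨by simpa [Column.rt] using h1,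
          by simpa [ls] using h2⟩)))
    · cases l
      · exact Or.inl (Or.inl (Or.inr ⟨by simpa [Column.rb] using h1,
          by simpa [ls] using h2⟩))
      · exact Or.inl (Or.inr ⟨by simpa [Column.rb] using h1, by simpa [ls] using h2⟩)
    · exact Or.inr h

theorem mem_rootsL {g : Gl} {r : Cell × S3 × ℤ} (L : List Column) (i : ℕ) :
    r ∈ rootsL g i L ↔ ∃ k c, L[k]? = some c ∧ r ∈ rootsC g (i + k) c := by
  induction L generalizing i with
  | nil => simp [rootsL]
  | cons c L ih =>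
    rw [rootsL, List.mem_append, ih]
    constructor
    · rintro (h | ⟨k, c', hc, h⟩)
      · exact ⟨0, c, by simp, h⟩
      · exact ⟨k + 1, c', by simpa using hc, by
          rw [show i + (k + 1) = i + 1 + k by omega]; exact h⟩
    · rintro ⟨k, c', hc, h⟩
      cases k with
      | zero =>
        simp only [List.getElem?_cons_zero, Option.some.injEq] at hc
        subst hc
        exact Or.inl h
      | succ k =>
        exact Or.inr ⟨k, c', by simpa using hc, by
          rw [show i + 1 + k = i + (k + 1) by omega]; exact h⟩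

theorem mem_rootsP {g : Gl} {r : Cell × S3 × ℤ} :
    r ∈ rootsP g ↔ ∃ l, (if l then g.rp1 else g.rp0) = 0 ∧
      r = (Cell.pole l, S3.of g.sp, ls l g.pl) := by
  unfold rootsP
  simp only [List.mem_append, mem_ite_list, natBeq_zero, negZ_eq]
  constructor
  · rintro (⟨h1, h2⟩ | ⟨h1, h2⟩)
    · exact ⟨false, by simpa using h1, by simpa [ls] using h2⟩
    · exact ⟨true, by simpa using h1, by simpa [ls] using h2⟩
  · rintro ⟨l, h1, h2⟩
    cases l
    · exact Or.inl ⟨by simpa using h1, by simpa [ls] using h2⟩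
    · exact Or.inr ⟨by simpa using h1, by simpa [ls] using h2⟩

theorem glOK_sp {g : Gl} (hg : glOK g = true) : g.sp = sgnR g.par g.s0 g.pl := by
  unfold glOK at hg
  simp only [Bool.and_eq_true] at hg
  exact beq_iff_eq.1 hg.1.1.1.1.1

theorem colC_lab {g : Gl} {c : Column} (h : colC g c = true) :
    ∀ b ∈ c.bx, b.lab.natAbs ≤ g.par.length := by
  unfold colC at h
  simp only [Bool.and_eq_true] at h
  have h1 := h.1.1.1.2
  intro b hb
  have h2 := List.all_eq_true.1 h1 b hb
  simp only [Bool.and_eq_true] at h2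
  exact Nat.le_of_ble_eq_true h2.1.2

theorem getElem?_getD {α : Type*} {l : List α} {i : ℕ} {x d : α} (h : l[i]? = some x) :
    l.getD i d = x ∧ i < l.length := by
  constructor
  · simp [List.getD, h]
  · exact (List.getElem?_eq_some_iff.1 h).1

theorem getElem?_of_lt {α : Type*} {l : List α} {i : ℕ} (d : α) (h : i < l.length) :
    l[i]? = some (l.getD i d) := by
  simp [List.getD, List.getElem?_eq_getElem h]

/-- the list of the parts of rank zero -/
theorem mem_roots {g : Gl} (hg : glOK g = true) {L : List Column}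
    (hL : ∀ c ∈ L, colC g c = true) {c : Cell} {s : S3} {k : ℤ} :
    (c, s, k) ∈ rootsP g ++ rootsL g 0 L ↔
      (certOf g L).Valid c ∧ (certOf g L).Act c s ∧ (certOf g L).crk c s = 0 ∧
        (certOf g L).clab c s = k := by
  have hsp : (certOf g L).sp = g.sp := (glOK_sp hg).symm
  rw [List.mem_append, mem_rootsP, mem_rootsL]
  simp only [mem_rootsC, Nat.zero_add]
  have hbl : ∀ {i : ℕ} {c : Column}, L[i]? = some c → ∀ {j : ℕ} {b : Box}, c.bx[j]? = some b →
      ∀ s, blF g b s = (certOf g L).bl b s := by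
    intro i c hc j b hb s
    exact blF_eq hg (colC_lab (hL c (List.mem_of_getElem? hc)) b
      (List.mem_of_getElem? hb)) L s
  constructor
  · rintro (⟨l, h1, h2⟩ | ⟨i, c', hc, ⟨l, h1, h2⟩ | ⟨l, h1, h2⟩ | ⟨j, b, hb, l, s', h0, h1, h2⟩⟩)
    · obtain ⟨rfl, rfl, rfl⟩ : c = Cell.pole l ∧ s = S3.of g.sp ∧ k = ls l g.pl := by
        simpa using h2
      exact ⟨trivial, by simp [Cert.Act, hsp], h1, rfl⟩
    · obtain ⟨rfl, rfl, rfl⟩ : c = Cell.top l i ∧ s = S3.of g.sp ∧ k = ls l g.pl := by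
        simpa using h2
      obtain ⟨hc1, hc2⟩ := getElem?_getD (d := col0) hc
      refine ⟨hc2, by simp [Cert.Act, hsp], ?_, rfl⟩
      change ((L.getD i col0)).rt l = 0
      rw [hc1]; exact h1
    · obtain ⟨rfl, rfl, rfl⟩ : c = Cell.bot l i ∧ s = S3.of g.sp ∧ k = ls l (-g.pl) := by
        simpa using h2
      obtain ⟨hc1, hc2⟩ := getElem?_getD (d := col0) hc
      refine ⟨hc2, by simp [Cert.Act, hsp], ?_, rfl⟩
      change ((L.getD i col0)).rb l = 0
      rw [hc1]; exact h1
    · obtain ⟨rfl, rfl, rfl⟩ : c = Cell.box l i j ∧ s = s' ∧ k = ls l (blF g b s') := by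
        simpa using h2
      obtain ⟨hc1, hc2⟩ := getElem?_getD (d := col0) hc
      obtain ⟨hb1, hb2⟩ := getElem?_getD (d := box0) hb
      have hcol : (certOf g L).col i = c' := hc1
      have hbox : ((certOf g L).col i).box j = b := by rw [hcol]; exact hb1
      refine ⟨⟨hc2, by rw [hcol]; exact hb2⟩, ?_, ?_, ?_⟩
      · change (((certOf g L).col i).box j).Act s
        rw [hbox]; exact h0
      · change (((certOf g L).col i).box j).rk l s = 0
        rw [hbox]; exact h1
      · change ls l ((certOf g L).bl (((certOf g L).col i).box j) s) = _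
        rw [hbox, hbl hc hb]
  · rintro ⟨hv, ha, hr, rfl⟩
    match c, hv, ha, hr with
    | Cell.box l i j, hv, ha, hr =>
      refine Or.inr ⟨i, (certOf g L).col i, getElem?_of_lt col0 hv.1, Or.inr (Or.inr
        ⟨j, ((certOf g L).col i).box j, getElem?_of_lt box0 hv.2, l, s, ha, hr, ?_⟩)⟩
      have hh := hbl (getElem?_of_lt col0 hv.1) (getElem?_of_lt box0 hv.2) s
      change _ = (Cell.box l i j, s, ls l (blF g ((L.getD i col0).bx.getD j box0) s))
      rw [hh]
      rfl
    | Cell.top l i, hv, ha, hr =>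
      have ha' : s = S3.of g.sp := by rw [← hsp]; exact ha
      subst ha'
      exact Or.inr ⟨i, (certOf g L).col i, getElem?_of_lt col0 hv, Or.inl ⟨l, hr, rfl⟩⟩
    | Cell.bot l i, hv, ha, hr =>
      have ha' : s = S3.of g.sp := by rw [← hsp]; exact ha
      subst ha'
      exact Or.inr ⟨i, (certOf g L).col i, getElem?_of_lt col0 hv,
        Or.inr (Or.inl ⟨l, hr, rfl⟩)⟩
    | Cell.pole l, hv, ha, hr =>
      have ha' : s = S3.of g.sp := by rw [← hsp]; exact ha
      subst ha'
      exact Or.inl ⟨l, hr, rfl⟩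

end P5

open P5 in
/-- [OCT-P5] -/
theorem roots_sound {g : Gl} (hg : glOK g = true) {L : List Column}
    (hL : ∀ c ∈ L, colC g c = true) (h : rootsOK g (rootsP g ++ rootsL g 0 L) = true) :
    (∀ c c' s s', (certOf g L).Valid c → (certOf g L).Valid c' → (certOf g L).Act c s →
      (certOf g L).Act c' s' → (certOf g L).crk c s = 0 → (certOf g L).crk c' s' = 0 →
      (s = S3.z ↔ s' = S3.z) → (certOf g L).clab c s = (certOf g L).clab c' s' →
      c = c' ∧ s = s') ∧
    ∀ o : ℤ, o ≠ 0 → o.natAbs ≤ (certOf g L).m →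
      ∃ c, (certOf g L).Valid c ∧ (certOf g L).Act c S3.z ∧ (certOf g L).clab c S3.z = o := by
  unfold rootsOK at h
  rw [Bool.and_eq_true] at h
  obtain ⟨h1, h2⟩ := h
  have h1' := of_decide_eq_true h1
  rw [List.all_eq_true] at h2
  constructor
  · intro c c' s s' hv hv' ha ha' hr hr' hz hl
    have m1 := (mem_roots hg hL).2 ⟨hv, ha, hr, rfl⟩
    have m2 := (mem_roots hg hL).2 ⟨hv', ha', hr', rfl⟩
    have := List.inj_on_of_nodup_map h1' m1 m2 (by simp [keyR, hz, hl])
    simp only [Prod.mk.injEq] at this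
    exact ⟨this.1, this.2.1⟩
  · intro o ho hm
    obtain ⟨n, hn, hon⟩ : ∃ n < g.par.length, o = ((n + 1 : ℕ) : ℤ) ∨ o = -((n + 1 : ℕ) : ℤ) := by
      have hm' : o.natAbs ≤ g.par.length := hm
      refine ⟨o.natAbs - 1, by omega, by omega⟩
    have h3 := h2 n (List.mem_range.2 hn)
    rw [Bool.and_eq_true, List.any_eq_true, List.any_eq_true] at h3
    obtain ⟨⟨⟨c1, s1, k1⟩, m1, e1⟩, ⟨⟨c2, s2, k2⟩, m2, e2⟩⟩ := h3
    have e1' := of_decide_eq_true e1
    have e2' := of_decide_eq_true e2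
    simp only at e1' e2'
    obtain ⟨rfl, rfl⟩ := e1'
    obtain ⟨rfl, rfl⟩ := e2'
    obtain ⟨v1, a1, -, l1⟩ := (mem_roots hg hL).1 m1
    obtain ⟨v2, a2, -, l2⟩ := (mem_roots hg hL).1 m2
    rcases hon with rfl | rfl
    · exact ⟨c1, v1, a1, l1⟩
    · exact ⟨c2, v2, a2, l2⟩

end Oct
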